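import Pool.Agent.H.MP_f78535_pr.Tail

set_option autoImplicit false

open Set Filter MeasureTheory ProbabilityTheory
open scoped Topology ENNReal
open Pool.Agent.H.MP_f78535_pr

/-- For every dimension `d ≥ 2` and all admissible parameters, no exponential bound
`P(Z' ∈ 𝒫_n) < C^n` (for all `n ≥ d + 1`) with `C < 1` holds for the facet number of the typical
cell of the beta'-Voronoi tessellation. -/
theorem Pool.Agent.Results.MP_f78535_pr.HeavyTail.result
    (d : ℕ) (hd : 2 ≤ d) (β γ c : ℝ) (hβ : (d:ℝ) / 2 + 1 < β) (hγ : 0 < γ) (hc : 0 < c)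
    {Ω : Type*} [MeasurableSpace Ω] (P : Measure Ω) [IsProbabilityMeasure P]
    (X : ℕ → Ω → EuclideanSpace ℝ (Fin d) × ℝ) (hX : IsPoissonProcess X (intensity d β γ c) P)
    (B : Set (EuclideanSpace ℝ (Fin d))) (hB : MeasurableSet B) (hBb : Bornology.IsBounded B)
    (hB0 : volume B ≠ 0) :
    ∀ C : ℝ, C < 1 → ∃ n : ℕ, d + 1 ≤ n ∧ C ^ n ≤ typicalFacetProb P X B n := by
  intro C hC
  by_contra hcon
  push Not at hcon
  have hK : 0 < γ * c := mul_pos hγ hc
  have hden : meanCells P X B < ⊤ := den_finite hβ hK hX hB hBb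
  have hle : ∀ n, meanFacetCells P X B n ≤ meanCells P X B := fun n =>
    ENNReal.tsum_le_tsum fun i => measure_mono fun w hw => ⟨hw.1, hw.2.1⟩
  have hp0 : ∀ n, 0 ≤ typicalFacetProb P X B n := fun n => ENNReal.toReal_nonneg
  have hC0 : 0 < C := by
    have h1 := (hp0 (d+1)).trans_lt (hcon (d+1) le_rfl)
    have h2 := (hp0 (d+2)).trans_lt (hcon (d+2) (by omega))
    rw [pow_succ] at h2
    exact (pos_iff_pos_of_mul_pos h2).1 h1
  set D := (meanCells P X B).toReal with hD
  have hbound : ∀ n, d + 1 ≤ n → meanFacetCells P X B n ≤ ENNReal.ofReal (C ^ n * D) := by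
    intro n hn
    by_cases h0 : meanCells P X B = 0
    · exact ((hle n).trans h0.le).trans (by simp)
    · have h1 := (hcon n hn).le
      have h2 : meanFacetCells P X B n / meanCells P X B ≠ ⊤ :=
        (ENNReal.div_lt_top ((hle n).trans_lt hden).ne h0).ne
      have h3 : meanFacetCells P X B n / meanCells P X B ≤ ENNReal.ofReal (C ^ n) := by
        rw [← ENNReal.ofReal_toReal h2]
        exact ENNReal.ofReal_le_ofReal h1
      calc meanFacetCells P X B n = meanFacetCells P X B n / meanCells P X B * meanCells P X B :=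
            (ENNReal.div_mul_cancel h0 hden.ne).symm
        _ ≤ ENNReal.ofReal (C ^ n) * meanCells P X B := by gcongr
        _ = ENNReal.ofReal (C ^ n * D) := by
            rw [ENNReal.ofReal_mul (by positivity), hD, ENNReal.ofReal_toReal hden.ne]
  obtain ⟨a, ha, N, hN⟩ := tail_lower hd hβ hK hX hB hBb hB0
  have hD0 : 0 ≤ D := ENNReal.toReal_nonneg
  have key : ∀ m : ℕ, d + 1 ≤ m → a * (1 - C) ≤ (m:ℝ) ^ N * C ^ m * D := by
    intro m hm
    have hm0 : 0 < m := by omega
    have hmR : (0:ℝ) < m := by exact_mod_cast hm0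
    have hsum : HasSum (fun k : ℕ => C ^ (m + k) * D) (C ^ m * (1 - C)⁻¹ * D) := by
      have h1 := ((hasSum_geometric_of_lt_one hC0.le hC).mul_left (C ^ m)).mul_right D
      simpa [pow_add] using h1
    have h1 : ENNReal.ofReal (a / (m:ℝ) ^ N) ≤ ENNReal.ofReal (C ^ m * (1 - C)⁻¹ * D) := by
      refine (hN m hm0).trans ?_
      rw [← hsum.tsum_eq, ENNReal.ofReal_tsum_of_nonneg (fun k => by positivity) hsum.summable]
      exact ENNReal.tsum_le_tsum fun k => hbound (m + k) (by omega)
    have h1C : 0 < 1 - C := by linarith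
    have h2 : a / (m:ℝ) ^ N ≤ C ^ m * (1 - C)⁻¹ * D :=
      (ENNReal.ofReal_le_ofReal_iff (by positivity)).1 h1
    rw [div_le_iff₀ (by positivity)] at h2
    calc a * (1 - C) ≤ (C ^ m * (1 - C)⁻¹ * D * (m:ℝ) ^ N) * (1 - C) := by gcongr
      _ = (m:ℝ) ^ N * C ^ m * D := by field_simp
  have hlim : Tendsto (fun m : ℕ => (m:ℝ) ^ N * C ^ m * D) atTop (𝓝 0) := by
    have h1 := tendsto_pow_const_mul_const_pow_of_abs_lt_one N
      (show |C| < 1 by rw [abs_of_pos hC0]; exact hC)
    simpa using h1.mul_const D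
  have h2 : a * (1 - C) ≤ 0 := by
    refine ge_of_tendsto hlim ?_
    filter_upwards [eventually_ge_atTop (d+1)] with m hm
    exact key m hm
  have h3 : 0 < a * (1 - C) := mul_pos ha (by linarith)
  linarith
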